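import Mathlib
import Pool.Agent.H24.SplDefs
import Pool.Agent.H24.SplDefs2
import Pool.Agent.H24.Spl2

namespace Pool.Agent.Results.MP_276eaf_co.Q2Yes
open Pool.Agent.H24.SplDefs

theorem result : Unavoidable (Av p1423) p2413 ∧ Unavoidable (Av p1423) p3142 :=
  Pool.Agent.H24.Spl2.main

end Pool.Agent.Results.MP_276eaf_co.Q2Yes
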